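import Pool.Agent.helper10.OM.SpecG
import Pool.Agent.helper34.OM.UFT

/-! # Project OM, part G: row GUF (variant of UFT, helper34) -/

set_option autoImplicit false

namespace Pool.Agent.OM

open Finset Real Pool.Agent.AT Pool.Agent.helper85.FC

/-- the kernel of the row -/
noncomputable def GUF_g (I : Finset (ℕ × ℕ)) (φ ψ : ℕ → ℤ → ℝ) (x y : ℤ) : ℝ := ∑ p ∈ I, φ p.1 x * ψ p.2 y

theorem GUF_cs (F : Finset ℕ) (I : Finset (ℕ × ℕ)) (hIF : I ⊆ F ×ˢ F)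
    (hI : ∀ p ∈ I, ∀ p' ∈ I, (p.1 = p'.1 ∨ p.2 = p'.2) → p = p') (X : Finset ℤ) (φ ψ : ℕ → ℤ → ℝ) (α β : ℝ) :
    ‖∑ p ∈ I, ft X (φ p.1) α * ft X (ψ p.2) β‖ ^ 2 ≤ PF F X φ α * PF F X ψ β := by
  have h1 : ‖∑ p ∈ I, ft X (φ p.1) α * ft X (ψ p.2) β‖ ≤ ∑ p ∈ I, ‖ft X (φ p.1) α‖ * ‖ft X (ψ p.2) β‖ := by
    refine (norm_sum_le _ _).trans (le_of_eq ?_)
    exact Finset.sum_congr rfl fun i _ => norm_mul _ _
  have h2 : (∑ p ∈ I, ‖ft X (φ p.1) α‖ * ‖ft X (ψ p.2) β‖) ^ 2 ≤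
      (∑ p ∈ I, ‖ft X (φ p.1) α‖ ^ 2) * (∑ p ∈ I, ‖ft X (ψ p.2) β‖ ^ 2) :=
    Finset.sum_mul_sq_le_sq_mul_sq _ _ _
  have h3 : ∑ p ∈ I, ‖ft X (φ p.1) α‖ ^ 2 ≤ PF F X φ α := by
    have hinj : Set.InjOn Prod.fst (I : Set (ℕ × ℕ)) := fun p hp p' hp' h => hI p hp p' hp' (Or.inl h)
    have e : ∑ p ∈ I, ‖ft X (φ p.1) α‖ ^ 2 = ∑ s ∈ I.image Prod.fst, ‖ft X (φ s) α‖ ^ 2 :=
      (Finset.sum_image (f := fun s => ‖ft X (φ s) α‖ ^ 2) hinj).symm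
    rw [e]
    unfold PF
    refine Finset.sum_le_sum_of_subset_of_nonneg ?_ (fun i _ _ => by positivity)
    intro s hs
    obtain ⟨p, hp, rfl⟩ := Finset.mem_image.1 hs
    exact (Finset.mem_product.1 (hIF hp)).1
  have h4 : ∑ p ∈ I, ‖ft X (ψ p.2) β‖ ^ 2 ≤ PF F X ψ β := by
    have hinj : Set.InjOn Prod.snd (I : Set (ℕ × ℕ)) := fun p hp p' hp' h => hI p hp p' hp' (Or.inr h)
    have e : ∑ p ∈ I, ‖ft X (ψ p.2) β‖ ^ 2 = ∑ s ∈ I.image Prod.snd, ‖ft X (ψ s) β‖ ^ 2 :=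
      (Finset.sum_image (f := fun s => ‖ft X (ψ s) β‖ ^ 2) hinj).symm
    rw [e]
    unfold PF
    refine Finset.sum_le_sum_of_subset_of_nonneg ?_ (fun i _ _ => by positivity)
    intro s hs
    obtain ⟨p, hp, rfl⟩ := Finset.mem_image.1 hs
    exact (Finset.mem_product.1 (hIF hp)).2
  calc _ ≤ (∑ p ∈ I, ‖ft X (φ p.1) α‖ * ‖ft X (ψ p.2) β‖) ^ 2 := pow_le_pow_left₀ (norm_nonneg _) h1 2
    _ ≤ _ := h2
    _ ≤ _ := mul_le_mul h3 h4 (Finset.sum_nonneg fun i _ => by positivity)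
        (Finset.sum_nonneg fun i _ => by positivity)

theorem GUF_hat (I : Finset (ℕ × ℕ)) (X : Finset ℤ) (φ ψ : ℕ → ℤ → ℝ) (α β : ℝ) :
    ∑ x ∈ X, ∑ y ∈ X, ((GUF_g I φ ψ x y : ℝ) : ℂ) * (ee (α * x) * ee (β * y)) =
      ∑ p ∈ I, ft X (φ p.1) α * ft X (ψ p.2) β := by
  unfold GUF_g ft
  simp only [Complex.ofReal_sum, Complex.ofReal_mul, Finset.sum_mul]
  rw [Finset.sum_comm]
  have : ∀ y ∈ X, ∑ x ∈ X, ∑ p ∈ I, (φ p.1 x : ℂ) * (ψ p.2 y : ℂ) * (ee (α * x) * ee (β * y)) =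
      ∑ p ∈ I, ∑ x ∈ X, (φ p.1 x : ℂ) * (ψ p.2 y : ℂ) * (ee (α * x) * ee (β * y)) := fun y _ =>
    Finset.sum_comm
  rw [Finset.sum_congr rfl this, Finset.sum_comm]
  refine Finset.sum_congr rfl fun p _ => ?_
  rw [Finset.sum_comm]
  refine Finset.sum_congr rfl fun x _ => ?_
  rw [Finset.mul_sum]
  refine Finset.sum_congr rfl fun y _ => ?_
  ring

theorem GUF_shift (h1 : EEB_stmt) (h3 : SHF_stmt) (I : Finset (ℕ × ℕ)) (R₀ R Y A B : ℕ) (hA : R₀ + A ≤ R) (hB : R₀ + B ≤ R)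
    (φ ψ : ℕ → ℤ → ℝ) (hφ : Sp R₀ Y φ) (hψ : Sp R₀ Y ψ) (α β : ℝ) :
    ∑ x ∈ XX R Y, ∑ y ∈ XX R Y, ((GUF_g I φ ψ (x + (A : ℤ)) (y + (B : ℤ)) : ℝ) : ℂ) * (ee (α * x) * ee (β * y)) =
      ee (-(A * α + B * β)) * ∑ x ∈ XX R Y, ∑ y ∈ XX R Y, ((GUF_g I φ ψ x y : ℝ) : ℂ) * (ee (α * x) * ee (β * y)) := by
  obtain ⟨-, hadd, -, -, -⟩ := h1
  set H : ℤ → ℤ → ℂ := fun x y => ((GUF_g I φ ψ x y : ℝ) : ℂ) * (ee (α * x) * ee (β * y)) with hH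
  have e1 : ∀ x y : ℤ, ((GUF_g I φ ψ (x + (A : ℤ)) (y + (B : ℤ)) : ℝ) : ℂ) * (ee (α * x) * ee (β * y)) =
      ee (-(A * α + B * β)) * H (x + A) (y + B) := by
    intro x y
    have : ee (α * x) * ee (β * y) = ee (-(A * α + B * β)) * (ee (α * ((x + (A : ℤ) : ℤ) : ℝ)) *
        ee (β * ((y + (B : ℤ) : ℤ) : ℝ))) := by
      rw [← hadd, ← hadd, ← hadd]
      congr 1
      push_cast
      ring
    rw [this, hH]
    ring
  simp only [e1, ← Finset.mul_sum]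
  congr 1
  have s1 : ∑ x ∈ XX R Y, (fun x => ∑ y ∈ XX R Y, H x (y + B)) (x + (A : ℤ)) =
      ∑ x ∈ XX R Y, (fun x => ∑ y ∈ XX R Y, H x (y + B)) x := by
    refine @h3 ℂ _ R₀ R Y (A : ℤ) ?_ (fun x => ∑ y ∈ XX R Y, H x (y + B)) ?_
    · rw [abs_of_nonneg (by positivity)]
      exact_mod_cast hA
    · intro x hx
      refine Finset.sum_eq_zero fun y _ => ?_
      simp only [hH, GUF_g]
      rw [Finset.sum_eq_zero]
      · simp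
      · intro i _
        rw [hφ i.1 x hx, zero_mul]
  have s2 : ∀ x, ∑ y ∈ XX R Y, (fun y => H x y) (y + (B : ℤ)) = ∑ y ∈ XX R Y, (fun y => H x y) y := by
    intro x
    refine @h3 ℂ _ R₀ R Y (B : ℤ) ?_ (fun y => H x y) ?_
    · rw [abs_of_nonneg (by positivity)]
      exact_mod_cast hB
    · intro y hy
      simp only [hH, GUF_g]
      rw [Finset.sum_eq_zero]
      · simp
      · intro i _
        rw [hψ _ y hy, mul_zero]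
  calc _ = ∑ x ∈ XX R Y, (fun x => ∑ y ∈ XX R Y, H x (y + B)) (x + (A : ℤ)) := rfl
    _ = ∑ x ∈ XX R Y, (fun x => ∑ y ∈ XX R Y, H x (y + B)) x := s1
    _ = _ := Finset.sum_congr rfl fun x _ => s2 x

theorem GUF (h1 : EEB_stmt) (h2 : PA2_stmt) (h3 : SHF_stmt) : GUF_stmt := by
  intro F I A B D R₀ R Y Q hIF hI hD hQ hYQ hRa hRb φ ψ hφ hψ
  set g : ℤ → ℤ → ℝ := fun x y => (∑ d ∈ range D, GUF_g I φ ψ (x + (A : ℤ) * d) (y + (B : ℤ) * d)) / D with hg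
  have hP := h2 Q hQ (XX R Y) (UFT_inj R Y Q hYQ) (fun x y => ((g x y : ℝ) : ℂ))
  have hn : ∀ x y, ‖((g x y : ℝ) : ℂ)‖ ^ 2 = g x y ^ 2 := by
    intro x y
    rw [Complex.norm_real, Real.norm_eq_abs, sq_abs]
  simp only [hn] at hP
  have hgoal : (Q : ℝ) ^ 2 * ∑ x ∈ XX R Y, ∑ y ∈ XX R Y,
      ((∑ d ∈ range D, ∑ p ∈ I, φ p.1 (x + (A : ℤ) * d) * ψ p.2 (y + (B : ℤ) * d)) / D) ^ 2 =
      (Q : ℝ) ^ 2 * ∑ x ∈ XX R Y, ∑ y ∈ XX R Y, g x y ^ 2 := rfl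
  rw [hgoal, ← hP]
  refine Finset.sum_le_sum fun k _ => Finset.sum_le_sum fun l _ => ?_
  set α : ℝ := (k : ℝ) / Q
  set β : ℝ := (l : ℝ) / Q
  have hG : ∑ x ∈ XX R Y, ∑ y ∈ XX R Y, ((g x y : ℝ) : ℂ) * (ee (α * x) * ee (β * y)) =
      ((∑ d ∈ range D, ee (-(((A : ℝ) * α + (B : ℝ) * β) * d))) / D) *
        ∑ p ∈ I, ft (XX R Y) (φ p.1) α * ft (XX R Y) (ψ p.2) β := by
    rw [← GUF_hat]
    have e1 : ∀ x y : ℤ, ((g x y : ℝ) : ℂ) * (ee (α * x) * ee (β * y)) =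
        ∑ d ∈ range D, (((GUF_g I φ ψ (x + ((A * d : ℕ) : ℤ)) (y + ((B * d : ℕ) : ℤ)) : ℝ) : ℂ) *
          (ee (α * x) * ee (β * y))) / D := by
      intro x y
      rw [hg]
      push_cast
      rw [Finset.sum_div, Finset.sum_mul]
      refine Finset.sum_congr rfl fun d _ => ?_
      ring
    simp only [e1]
    have e2 : ∀ x ∈ XX R Y, ∑ y ∈ XX R Y, ∑ d ∈ range D, (((GUF_g I φ ψ (x + ((A * d : ℕ) : ℤ)) (y + ((B * d : ℕ) : ℤ)) : ℝ) : ℂ) *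
          (ee (α * x) * ee (β * y))) / D = ∑ d ∈ range D, ∑ y ∈ XX R Y, (((GUF_g I φ ψ (x + ((A * d : ℕ) : ℤ)) (y + ((B * d : ℕ) : ℤ)) : ℝ) : ℂ) *
          (ee (α * x) * ee (β * y))) / D := fun x _ => Finset.sum_comm
    rw [Finset.sum_congr rfl e2, Finset.sum_comm, Finset.sum_div, Finset.sum_mul]
    refine Finset.sum_congr rfl fun d hd => ?_
    rw [Finset.mem_range] at hd
    have hs := GUF_shift h1 h3 I R₀ R Y (A * d) (B * d)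
      (le_trans (Nat.add_le_add_left (Nat.mul_le_mul_left _ hd.le) _) hRa)
      (le_trans (Nat.add_le_add_left (Nat.mul_le_mul_left _ hd.le) _) hRb) φ ψ hφ hψ α β
    simp only [← Finset.sum_div]
    rw [hs]
    have e3 : (-(((A * d : ℕ) : ℝ) * α + ((B * d : ℕ) : ℝ) * β)) =
        -(((A : ℝ) * α + (B : ℝ) * β) * d) := by
      push_cast
      ring
    rw [e3]
    ring
  rw [hG, norm_mul, mul_pow, norm_div, Complex.norm_natCast]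
  have e4 := UFT_norm D ((A : ℝ) * α + (B : ℝ) * β)
  rw [e4]
  have e5 : (‖∑ d ∈ range D, ee (((A : ℝ) * α + (B : ℝ) * β) * d)‖ / D) ^ 2 =
      FD D ((A : ℝ) * α + (B : ℝ) * β) := rfl
  rw [e5, mul_comm]
  refine mul_le_mul_of_nonneg_right (GUF_cs F I hIF hI (XX R Y) φ ψ α β) ?_
  unfold FD
  positivity

end Pool.Agent.OM
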